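import Mathlib

/-!
# Non-unique factorization in `H[u,v]` with factors linear in `v`

We work in `R = H[u][v]`, that is `Polynomial (Polynomial ℍ[ℝ])`, where `u = C X` and `v = X`;
both variables are central and commute with each other.
-/

open Polynomial
open scoped Quaternion

namespace Pool.Agent.Results.MP_628392_al.NonSimilarFactorizations

/-- The ring `R = H[u,v]` of quaternionic polynomials in two central commuting variables.
The variable `u` is `C X` (inner variable), the variable `v` is `X` (outer variable), and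
`deg_v` is `natDegree`. -/
abbrev HUV : Type := Polynomial (Polynomial ℍ[ℝ])

/-- Similarity: `R / R A` and `R / R B` are isomorphic as left `R`-modules. -/
def Similar (A B : HUV) : Prop :=
  Nonempty ((HUV ⧸ Submodule.span HUV {A}) ≃ₗ[HUV] (HUV ⧸ Submodule.span HUV {B}))

/-- `L = [A_1, ..., A_m]` is an admissible factorization of `F`: the ordered product is `F`, and
every factor is irreducible in `R` and of degree at most one in `v`. -/
def Admissible (L : List HUV) (F : HUV) : Prop :=
  L.prod = F ∧ ∀ A ∈ L, Irreducible A ∧ A.natDegree ≤ 1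

/-- The factors of the two lists are similar in pairs: there is a bijection of the index sets
(so the lists have the same length) matching each factor with a similar one. -/
def SimilarInPairs (L M : List HUV) : Prop :=
  ∃ σ : Fin L.length ≃ Fin M.length, ∀ i, Similar (L.get i) (M.get (σ i))

/-- quaternion unit `i` -/
def qi : ℍ[ℝ] := ⟨0, 1, 0, 0⟩
/-- quaternion unit `j` -/
def qj : ℍ[ℝ] := ⟨0, 0, 1, 0⟩
@[simp] lemma qi_re : qi.re = 0 := rfl
@[simp] lemma qi_imI : qi.imI = 1 := rfl
@[simp] lemma qi_imJ : qi.imJ = 0 := rfl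
@[simp] lemma qi_imK : qi.imK = 0 := rfl
@[simp] lemma qj_re : qj.re = 0 := rfl
@[simp] lemma qj_imI : qj.imI = 0 := rfl
@[simp] lemma qj_imJ : qj.imJ = 1 := rfl
@[simp] lemma qj_imK : qj.imK = 0 := rfl

/-- `h = (u + i) j (u - i)` -/
noncomputable def h : Polynomial ℍ[ℝ] := (X + C qi) * C qj * (X - C qi)
/-- `k = (u ^ 2 + 1) j` -/
noncomputable def k : Polynomial ℍ[ℝ] := (X ^ 2 + 1) * C qj

lemma qi_sq : qi * qi = -1 := by
  apply Quaternion.ext <;> simp

lemma coeff_h : h.coeff 1 = (qi * qj - qj * qi) := by
  rw [h, mul_sub, coeff_sub, coeff_mul_X, coeff_mul_C, coeff_mul_C, coeff_mul_C]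
  simp [coeff_X]

lemma coeff_k : k.coeff 1 = 0 := by
  rw [k, coeff_mul_C]
  simp [coeff_X_pow, coeff_one]

lemma commutator_ne_zero : (qi * qj - qj * qi) ≠ 0 := by
  intro h
  have := congrArg QuaternionAlgebra.imK h
  have h2 : (qi * qj - qj * qi).imK = 2 := by
    rw [Quaternion.imK_sub, Quaternion.imK_mul, Quaternion.imK_mul]; norm_num
  rw [h2] at this
  norm_num at this

lemma norm_lin : ((X - C qi) * (X + C qi) : Polynomial ℍ[ℝ]) = X ^ 2 + 1 := by
  rw [sub_mul, mul_add, mul_add, ← C_mul, qi_sq, ← pow_two, X_mul_C, C_neg, C_1]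
  abel

lemma norm_lin' : ((X + C qi) * (X - C qi) : Polynomial ℍ[ℝ]) = X ^ 2 + 1 := by
  rw [add_mul, mul_sub, mul_sub, ← C_mul, qi_sq, ← pow_two, X_mul_C, C_neg, C_1]
  abel

/-- `(u - i) h = k (u - i)` -/
lemma intertwine : (X - C qi) * h = k * (X - C qi) := by
  rw [h, k, ← mul_assoc, ← mul_assoc, norm_lin]

/-- A monic linear polynomial over a (noncommutative) domain is irreducible. -/
lemma irreducible_X_sub_C' {D : Type*} [Ring D] [IsDomain D] (r : D) :
    Irreducible (X - C r : Polynomial D) := by
  have hne : (X - C r : Polynomial D) ≠ 0 := X_sub_C_ne_zero r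
  refine ⟨?_, ?_⟩
  · intro hu
    have := natDegree_eq_zero_of_isUnit hu
    rw [natDegree_X_sub_C] at this
    exact one_ne_zero this
  · intro a b hab
    have hane : a ≠ 0 := by
      rintro rfl; rw [zero_mul] at hab; exact hne hab
    have hbne : b ≠ 0 := by
      rintro rfl; rw [mul_zero] at hab; exact hne hab
    have hdeg : a.natDegree + b.natDegree = 1 := by
      rw [← natDegree_mul hane hbne, ← hab, natDegree_X_sub_C]
    have hlc : a.leadingCoeff * b.leadingCoeff = 1 := by
      rw [← leadingCoeff_mul, ← hab, leadingCoeff_X_sub_C]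
    have hlc' : b.leadingCoeff * a.leadingCoeff = 1 := by
      have hbl : b.leadingCoeff ≠ 0 := leadingCoeff_ne_zero.mpr hbne
      have : a.leadingCoeff * (b.leadingCoeff * a.leadingCoeff - 1) = 0 := by
        rw [mul_sub, ← mul_assoc, hlc, one_mul, mul_one, sub_self]
      rcases mul_eq_zero.mp this with h0 | h0
      · exact absurd h0 (leadingCoeff_ne_zero.mpr hane)
      · exact sub_eq_zero.mp h0
    rcases Nat.eq_zero_or_pos a.natDegree with h0 | h0
    · left
      have ha : a = C a.leadingCoeff := by
        rw [leadingCoeff, h0]; exact eq_C_of_natDegree_eq_zero h0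
      rw [ha]
      exact IsUnit.map C ⟨⟨_, _, hlc, hlc'⟩, rfl⟩
    · right
      have h1 : b.natDegree = 0 := by omega
      have hb : b = C b.leadingCoeff := by
        rw [leadingCoeff, h1]; exact eq_C_of_natDegree_eq_zero h1
      rw [hb]
      exact IsUnit.map C ⟨⟨_, _, hlc', hlc⟩, rfl⟩

/-- If `a` is irreducible in the domain `D` then `C a` is irreducible in `D[X]`. -/
lemma irreducible_C' {D : Type*} [Ring D] [IsDomain D] {r : D} (hr : Irreducible r) :
    Irreducible (C r : Polynomial D) := by
  have hr0 : r ≠ 0 := hr.ne_zero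
  have hne : (C r : Polynomial D) ≠ 0 := C_ne_zero.mpr hr0
  refine ⟨?_, ?_⟩
  · intro hu
    apply hr.not_isUnit
    obtain ⟨⟨x, y, hxy, hyx⟩, hx⟩ := hu
    have hx' : x = C r := hx
    subst hx'
    refine ⟨⟨r, y.coeff 0, ?_, ?_⟩, rfl⟩
    · have := congrArg (fun p => coeff p 0) hxy
      simpa using this
    · have := congrArg (fun p => coeff p 0) hyx
      simpa using this
  · intro a b hab
    have hane : a ≠ 0 := by
      rintro rfl; rw [zero_mul] at hab; exact hne hab
    have hbne : b ≠ 0 := by
      rintro rfl; rw [mul_zero] at hab; exact hne hab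
    have hdeg : a.natDegree + b.natDegree = 0 := by
      rw [← natDegree_mul hane hbne, ← hab, natDegree_C]
    have ha : a = C (a.coeff 0) := eq_C_of_natDegree_eq_zero (by omega)
    have hb : b = C (b.coeff 0) := eq_C_of_natDegree_eq_zero (by omega)
    have : r = a.coeff 0 * b.coeff 0 := by
      rw [← mul_coeff_zero, ← hab, coeff_C_zero]
    rcases hr.isUnit_or_isUnit this with h1 | h1
    · left; rw [ha]; exact IsUnit.map C h1
    · right; rw [hb]; exact IsUnit.map C h1

/-- Every `P` is congruent to its right evaluation at `r` modulo `R (v - r)`. -/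
lemma sub_C_eval_mem {D : Type*} [Ring D] (r : D) (P : Polynomial D) :
    P - C (P.eval r) ∈ Submodule.span (Polynomial D) {(X - C r : Polynomial D)} := by
  induction P using Polynomial.induction_on' with
  | add p q hp hq =>
    have : p + q - C ((p + q).eval r) = (p - C (p.eval r)) + (q - C (q.eval r)) := by
      rw [eval_add, C_add]; abel
    rw [this]; exact Submodule.add_mem _ hp hq
  | monomial n a =>
    induction n with
    | zero => simp
    | succ n ih =>
      have key : (monomial (n + 1) a : Polynomial D) - C ((monomial (n + 1) a).eval r)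
          = (monomial n a : Polynomial D) * (X - C r)
            + ((monomial n (a * r) : Polynomial D) - C ((monomial n (a * r)).eval r)) := by
        rw [mul_sub, monomial_mul_X, monomial_mul_C, eval_monomial, eval_monomial, pow_succ',
          mul_assoc]
        abel
      rw [key]
      refine Submodule.add_mem _ ?_ ?_
      · exact Submodule.smul_mem _ _ (Submodule.mem_span_singleton_self _)
      · have gen : ∀ (m : ℕ) (b : D), (monomial m b : Polynomial D) - C ((monomial m b).eval r)
            ∈ Submodule.span (Polynomial D) {(X - C r : Polynomial D)} := by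
          intro m
          induction m with
          | zero => intro b; simp
          | succ m ihm =>
            intro b
            have key : (monomial (m + 1) b : Polynomial D) - C ((monomial (m + 1) b).eval r)
                = (monomial m b : Polynomial D) * (X - C r)
                  + ((monomial m (b * r) : Polynomial D) - C ((monomial m (b * r)).eval r)) := by
              rw [mul_sub, monomial_mul_X, monomial_mul_C, eval_monomial, eval_monomial, pow_succ',
                mul_assoc]
              abel
            rw [key]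
            refine Submodule.add_mem _ ?_ (ihm _)
            exact Submodule.smul_mem _ _ (Submodule.mem_span_singleton_self _)
        exact gen n _

/-- Elements of `R (v - r)` have right evaluation `0` at `r`. -/
lemma eval_eq_zero_of_mem {D : Type*} [Ring D] (r : D) (P : Polynomial D)
    (hP : P ∈ Submodule.span (Polynomial D) {(X - C r : Polynomial D)}) : P.eval r = 0 := by
  obtain ⟨Q, rfl⟩ := Submodule.mem_span_singleton.mp hP
  exact eval_mul_X_sub_C r

/-- If `v - h` and `v - k` are similar, then `h c = c k` for a unit `c` of `H[u]`. -/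
lemma conj_of_similar {h k : Polynomial ℍ[ℝ]} (hs : Similar (X - C h) (X - C k)) :
    ∃ c d : Polynomial ℍ[ℝ], c * d = 1 ∧ h * c = c * k := by
  obtain ⟨φ⟩ := hs
  set I : Submodule HUV HUV := Submodule.span HUV {(X - C h : HUV)} with hI
  set J : Submodule HUV HUV := Submodule.span HUV {(X - C k : HUV)} with hJ
  obtain ⟨P, hP⟩ := Submodule.Quotient.mk_surjective J (φ (Submodule.Quotient.mk 1))
  obtain ⟨Q, hQ⟩ := Submodule.Quotient.mk_surjective I (φ.symm (Submodule.Quotient.mk 1))
  set c := P.eval k with hc
  set d := Q.eval h with hd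
  have hPc : φ (Submodule.Quotient.mk 1) = Submodule.Quotient.mk (C c) := by
    rw [← hP, Submodule.Quotient.eq]
    exact sub_C_eval_mem k P
  have hQd : φ.symm (Submodule.Quotient.mk 1) = Submodule.Quotient.mk (C d) := by
    rw [← hQ, Submodule.Quotient.eq]
    exact sub_C_eval_mem h Q
  have smul_mk1 : ∀ (K : Submodule HUV HUV) (a b : HUV),
      a • (Submodule.Quotient.mk b : HUV ⧸ K) = Submodule.Quotient.mk (a * b) := by
    intro K a b; rfl
  refine ⟨c, d, ?_, ?_⟩
  · have h1 : (Submodule.Quotient.mk 1 : HUV ⧸ I) = Submodule.Quotient.mk (C c * C d) := by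
      calc (Submodule.Quotient.mk 1 : HUV ⧸ I) = φ.symm (φ (Submodule.Quotient.mk 1)) := by simp
        _ = φ.symm (Submodule.Quotient.mk (C c * 1)) := by rw [hPc, mul_one]
        _ = φ.symm ((C c : HUV) • (Submodule.Quotient.mk 1 : HUV ⧸ J)) := by rw [smul_mk1]
        _ = (C c : HUV) • φ.symm (Submodule.Quotient.mk 1 : HUV ⧸ J) := by rw [map_smul]
        _ = Submodule.Quotient.mk (C c * C d) := by rw [hQd, smul_mk1]
    rw [Submodule.Quotient.eq] at h1
    have h2 := eval_eq_zero_of_mem h _ h1
    rw [← C_mul, eval_sub, eval_C, eval_one, sub_eq_zero] at h2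
    exact h2.symm
  · have h0 : (Submodule.Quotient.mk ((X - C h) * 1) : HUV ⧸ I) = 0 := by
      rw [mul_one, Submodule.Quotient.mk_eq_zero]
      exact Submodule.mem_span_singleton_self _
    have h1 : (Submodule.Quotient.mk ((X - C h) * C c) : HUV ⧸ J) = 0 := by
      rw [← smul_mk1, ← hPc, ← map_smul, smul_mk1, h0, map_zero]
    rw [Submodule.Quotient.mk_eq_zero] at h1
    have h2 := eval_eq_zero_of_mem k _ h1
    rw [sub_mul, X_mul, ← C_mul, eval_sub, eval_C, eval_mul_X, eval_C, sub_eq_zero] at h2
    exact h2.symm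

/-- `v - h` and `u - i` are not similar. -/
lemma not_similar_uv (h : Polynomial ℍ[ℝ]) : ¬ Similar (X - C h) (C (X - C qi)) := by
  rintro ⟨φ⟩
  set I : Submodule HUV HUV := Submodule.span HUV {(X - C h : HUV)} with hI
  set J : Submodule HUV HUV := Submodule.span HUV {(C (X - C qi) : HUV)} with hJ
  have smul_mk1 : ∀ (K : Submodule HUV HUV) (a b : HUV),
      a • (Submodule.Quotient.mk b : HUV ⧸ K) = Submodule.Quotient.mk (a * b) := by
    intro K a b; rfl
  obtain ⟨P, hP⟩ := Submodule.Quotient.mk_surjective J (φ (Submodule.Quotient.mk 1))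
  have hcen : (C (X ^ 2 + 1) : HUV) * P = P * C (X + C qi) * C (X - C qi) := by
    rw [mul_assoc, ← C_mul, norm_lin']
    have hc : ∀ p : Polynomial ℍ[ℝ], (X ^ 2 + 1) * p = p * (X ^ 2 + 1) := by
      intro p
      rw [add_mul, mul_add, one_mul, mul_one, X_pow_mul]
    ext n : 1
    rw [coeff_C_mul, coeff_mul_C, hc]
  have h0 : (Submodule.Quotient.mk (C (X ^ 2 + 1)) : HUV ⧸ I) = 0 := by
    apply φ.injective
    rw [map_zero, ← mul_one (C (X ^ 2 + 1) : HUV), ← smul_mk1, map_smul, ← hP, smul_mk1, hcen,
      Submodule.Quotient.mk_eq_zero]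
    exact Submodule.smul_mem _ _ (Submodule.mem_span_singleton_self _)
  rw [Submodule.Quotient.mk_eq_zero] at h0
  have h2 := eval_eq_zero_of_mem h _ h0
  rw [eval_C] at h2
  have := congrArg (fun p => coeff p 0) h2
  simp at this

/-- The two explicit polynomials `v - h` and `v - k` are not similar. -/
lemma not_similar_hk : ¬ Similar (X - C h) (X - C k) := by
  intro hs
  obtain ⟨c, d, hcd, hc⟩ := conj_of_similar hs
  have hc0 : c ≠ 0 := by
    rintro rfl
    rw [zero_mul] at hcd
    exact zero_ne_one hcd
  have hd0 : d ≠ 0 := by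
    rintro rfl
    rw [mul_zero] at hcd
    exact zero_ne_one hcd
  have hdeg : c.natDegree + d.natDegree = 0 := by
    rw [← natDegree_mul hc0 hd0, hcd, natDegree_one]
  have hC : c = C (c.coeff 0) := eq_C_of_natDegree_eq_zero (by omega)
  set q := c.coeff 0 with hq
  have hq0 : q ≠ 0 := by
    intro h0
    rw [h0, C_0] at hC
    exact hc0 hC
  rw [hC] at hc
  have h1 := congrArg (fun p => coeff p 1) hc
  simp only [coeff_mul_C, coeff_C_mul, coeff_h, coeff_k, mul_zero] at h1
  rcases mul_eq_zero.mp h1 with h2 | h2
  · exact commutator_ne_zero h2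
  · exact hq0 h2

/-- **Main result** (disproof of Q1): there is a nonzero `F` in `H[u,v]` with two admissible
factorizations whose factors cannot be matched up into pairs of similar factors. In fact
`F = (u - i) (v - (u + i) j (u - i)) = (v - (u ^ 2 + 1) j) (u - i)`. -/
theorem result : ∃ (F : HUV) (L M : List HUV), F ≠ 0 ∧ Admissible L F ∧ Admissible M F ∧
    ¬ SimilarInPairs L M := by
  have irr1 : Irreducible (C (X - C qi) : HUV) := irreducible_C' (irreducible_X_sub_C' qi)
  have irr2 : Irreducible (X - C h : HUV) := irreducible_X_sub_C' h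
  have irr3 : Irreducible (X - C k : HUV) := irreducible_X_sub_C' k
  refine ⟨C (X - C qi) * (X - C h), [C (X - C qi), X - C h], [X - C k, C (X - C qi)], ?_, ?_, ?_,
    ?_⟩
  · exact mul_ne_zero irr1.ne_zero irr2.ne_zero
  · refine ⟨by simp, ?_⟩
    intro A hA
    simp only [List.mem_cons, List.not_mem_nil, or_false] at hA
    rcases hA with rfl | rfl
    · exact ⟨irr1, by rw [natDegree_C]; exact Nat.zero_le _⟩
    · exact ⟨irr2, by rw [natDegree_X_sub_C]⟩
  · refine ⟨?_, ?_⟩
    · have e : (C (X - C qi) * (X - C h) : HUV) = (X - C k) * C (X - C qi) := by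
        rw [mul_sub, sub_mul, ← C_mul, ← C_mul, intertwine, X_mul]
      rw [e]; simp
    · intro A hA
      simp only [List.mem_cons, List.not_mem_nil, or_false] at hA
      rcases hA with rfl | rfl
      · exact ⟨irr3, by rw [natDegree_X_sub_C]⟩
      · exact ⟨irr1, by rw [natDegree_C]; exact Nat.zero_le _⟩
  · rintro ⟨σ, hσ⟩
    have h1 := hσ ⟨1, by simp⟩
    have hcases : (σ ⟨1, by simp⟩).val = 0 ∨ (σ ⟨1, by simp⟩).val = 1 := by
      have : (σ ⟨1, by simp⟩).val < 2 := (σ ⟨1, by simp⟩).isLt
      omega
    rcases hcases with h0 | h0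
    · have e : σ ⟨1, by simp⟩ = ⟨0, by simp⟩ := Fin.ext h0
      rw [e] at h1
      exact not_similar_hk h1
    · have e : σ ⟨1, by simp⟩ = ⟨1, by simp⟩ := Fin.ext h0
      rw [e] at h1
      exact not_similar_uv h h1

end Pool.Agent.Results.MP_628392_al.NonSimilarFactorizations
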